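import Mathlib
import Pool.Agent.Sat448.Saturate

set_option autoImplicit false

namespace Pool.Agent.Results.MP_5ab958_co.BoundedSaturation

open Pool.Agent.Sat448

/-- An edge-ordered graph on the vertex set `V`: a simple graph with a real labelling which is
injective on the set of edges; the edges are ordered by their labels. -/
structure EOGraph (V : Type) where
  /-- the underlying simple graph -/
  graph : SimpleGraph V
  /-- the labelling (only its values on edges matter) -/
  label : Sym2 V → ℝ
  /-- distinct edges have distinct labels -/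
  inj : Set.InjOn label graph.edgeSet

/-- `H` contains `F`: there is an injection of the vertices of `F` into the vertices of `H` which
sends edges to edges and preserves the order of the edges. -/
def Contains {V U : Type} (H : EOGraph V) (F : EOGraph U) : Prop :=
  ∃ f : U → V, Function.Injective f ∧
    (∀ u v, F.graph.Adj u v → H.graph.Adj (f u) (f v)) ∧
    ∀ e ∈ F.graph.edgeSet, ∀ e' ∈ F.graph.edgeSet, F.label e < F.label e' →
      H.label (Sym2.map f e) < H.label (Sym2.map f e')

open Classical in
/-- `H` together with the new edge `uv` with the label `l`, smaller than all labels of `H`. -/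
noncomputable def addMin {V : Type} (H : EOGraph V) (u v : V) (l : ℝ)
    (hl : ∀ e ∈ H.graph.edgeSet, l < H.label e) (h : ¬ H.graph.Adj u v) : EOGraph V where
  graph := H.graph ⊔ SimpleGraph.fromEdgeSet {s(u, v)}
  label := Function.update H.label s(u, v) l
  inj := by
    have hne : ∀ e ∈ H.graph.edgeSet, e ≠ s(u, v) := by
      rintro e he rfl
      exact h he
    have hcase : ∀ e ∈ (H.graph ⊔ SimpleGraph.fromEdgeSet {s(u, v)}).edgeSet,
        e ∈ H.graph.edgeSet ∨ e = s(u, v) := by
      intro e he
      rw [SimpleGraph.edgeSet_sup, SimpleGraph.edgeSet_fromEdgeSet] at he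
      rcases he with he | he
      · exact Or.inl he
      · exact Or.inr he.1
    intro e he e' he' heq
    rcases hcase e he with h1 | h1 <;> rcases hcase e' he' with h2 | h2
    · rw [Function.update_of_ne (hne e h1), Function.update_of_ne (hne e' h2)] at heq
      exact H.inj h1 h2 heq
    · rw [h2, Function.update_of_ne (hne e h1), Function.update_self] at heq
      exact absurd heq (hl e h1).ne'
    · rw [h1, Function.update_of_ne (hne e' h2), Function.update_self] at heq
      exact absurd heq (hl e' h2).ne
    · rw [h1, h2]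

/-- `H` is saturated for `F` with respect to new minimal edges: it avoids `F`, and adding any
missing edge with a label smaller than all labels of `H` creates a copy of `F`. -/
def MinSaturated {U V : Type} (F : EOGraph U) (H : EOGraph V) : Prop :=
  ¬ Contains H F ∧ ∀ (u v : V) (l : ℝ) (hl : ∀ e ∈ H.graph.edgeSet, l < H.label e)
    (h : ¬ H.graph.Adj u v), u ≠ v → Contains (addMin H u v l hl h) F

/-- The minimal number of edges of a saturated edge-ordered graph on `n` vertices. -/
noncomputable def satm {U : Type} (n : ℕ) (F : EOGraph U) : ℕ :=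
  sInf {m | ∃ H : EOGraph (Fin n), MinSaturated F H ∧ H.graph.edgeSet.ncard = m}

theorem mem_sum_edgeSet {U : Type} (G : SimpleGraph U) (e : Sym2 (U ⊕ Fin 2)) :
    e ∈ (G ⊕g (⊤ : SimpleGraph (Fin 2))).edgeSet ↔
      e = s(Sum.inr 0, Sum.inr 1) ∨ ∃ e' ∈ G.edgeSet, Sym2.map Sum.inl e' = e := by
  induction e using Sym2.ind with
  | _ a b =>
    rw [SimpleGraph.mem_edgeSet]
    constructor
    · intro h
      rcases a with a | a <;> rcases b with b | b
      · right
        exact ⟨s(a, b), by simpa using h, rfl⟩
      · simp at h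
      · simp at h
      · left
        fin_cases a <;> fin_cases b
        · simp at h
        · rfl
        · exact Sym2.eq_swap
        · simp at h
    · rintro (h | ⟨e', he', h⟩)
      · rcases Sym2.eq_iff.1 h with ⟨rfl, rfl⟩ | ⟨rfl, rfl⟩ <;> simp
      · induction e' using Sym2.ind with
        | _ c d =>
          rw [Sym2.map_mk] at h
          rcases Sym2.eq_iff.1 h with ⟨rfl, rfl⟩ | ⟨rfl, rfl⟩
          · simpa using he'
          · simpa using (G.mem_edgeSet.1 he').symm

theorem sum_label_inl {U : Type} (G : EOGraph U) (l : ℝ) (e : Sym2 U) :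
    Function.extend (Sym2.map (Sum.inl : U → U ⊕ Fin 2)) G.label (fun _ => l)
      (Sym2.map Sum.inl e) = G.label e :=
  (Sym2.map.injective Sum.inl_injective).extend_apply _ _ _

theorem sum_label_new {U : Type} (G : EOGraph U) (l : ℝ) :
    Function.extend (Sym2.map (Sum.inl : U → U ⊕ Fin 2)) G.label (fun _ => l)
      s(Sum.inr 0, Sum.inr 1) = l := by
  apply Function.extend_apply'
  rintro ⟨e, he⟩
  induction e using Sym2.ind with
  | _ a b =>
    rw [Sym2.map_mk] at he
    rcases Sym2.eq_iff.1 he with ⟨h, -⟩ | ⟨h, -⟩ <;> simp at h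

/-- `e₀ + G`: the disjoint union of `G` with one further edge on two new vertices, whose label `l`
is smaller than all labels of `G`. -/
noncomputable def e0Plus {U : Type} (G : EOGraph U) (l : ℝ)
    (hl : ∀ e ∈ G.graph.edgeSet, l < G.label e) : EOGraph (U ⊕ Fin 2) where
  graph := G.graph ⊕g (⊤ : SimpleGraph (Fin 2))
  label := Function.extend (Sym2.map Sum.inl) G.label (fun _ => l)
  inj := by
    intro e he e' he' heq
    rcases (mem_sum_edgeSet _ _).1 he with rfl | ⟨c, hc, rfl⟩ <;>
      rcases (mem_sum_edgeSet _ _).1 he' with rfl | ⟨d, hd, rfl⟩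
    · rfl
    · rw [sum_label_inl, sum_label_new] at heq
      exact absurd heq (hl d hd).ne
    · rw [sum_label_inl, sum_label_new] at heq
      exact absurd heq (hl c hc).ne'
    · rw [sum_label_inl, sum_label_inl] at heq
      rw [G.inj hc hd heq]

/-! ### Lists of edges -/

/-- `L` is the list of the edges of `H` in increasing order. -/
structure Rep {V : Type} (H : EOGraph V) (L : List (Sym2 V)) : Prop where
  mem : ∀ e, e ∈ L ↔ e ∈ H.graph.edgeSet
  sorted : L.Pairwise (fun a b => H.label a < H.label b)

theorem exists_rep {V : Type} [Finite V] (H : EOGraph V) : ∃ L, Rep H L ∧ L.Nodup := by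
  classical
  have : Fintype V := Fintype.ofFinite V
  obtain ⟨S, hS⟩ : ∃ S : Finset (Sym2 V), ∀ e, e ∈ S ↔ e ∈ H.graph.edgeSet :=
    ⟨H.graph.edgeSet.toFinite.toFinset, fun e => Set.Finite.mem_toFinset _⟩
  have hperm := List.mergeSort_perm S.toList (fun a b => decide (H.label a ≤ H.label b))
  have hnd : (S.toList.mergeSort (fun a b => decide (H.label a ≤ H.label b))).Nodup :=
    hperm.nodup_iff.2 S.nodup_toList
  have hmem : ∀ e, e ∈ S.toList.mergeSort (fun a b => decide (H.label a ≤ H.label b)) ↔
      e ∈ H.graph.edgeSet := by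
    intro e
    rw [hperm.mem_iff, Finset.mem_toList, hS]
  have hsort : (S.toList.mergeSort (fun a b => decide (H.label a ≤ H.label b))).Pairwise
      (fun a b => decide (H.label a ≤ H.label b) = true) := by
    apply List.pairwise_mergeSort
    · intro a b c
      simp only [decide_eq_true_eq]
      exact le_trans
    · intro a b
      simp only [Bool.or_eq_true, decide_eq_true_eq]
      exact le_total _ _
  refine ⟨_, ⟨hmem, ?_⟩, hnd⟩
  refine (List.Pairwise.and hsort hnd).imp_of_mem ?_
  intro a b ha hb hab
  obtain ⟨h1, h2⟩ := hab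
  rw [decide_eq_true_eq] at h1
  exact lt_of_le_of_ne h1 (fun h => h2 (H.inj ((hmem a).1 ha) ((hmem b).1 hb) h))

theorem sublist_of_sorted {α : Type} (l : α → ℝ) : ∀ (B A : List α),
    A.Pairwise (fun a b => l a < l b) → B.Pairwise (fun a b => l a < l b) → A ⊆ B →
    A.Sublist B := by
  intro B
  induction B with
  | nil =>
    intro A _ _ h
    rw [List.subset_nil.1 h]
  | cons b B ih =>
    intro A hA hB h
    cases A with
    | nil => exact List.nil_sublist _
    | cons a A =>
      rw [List.pairwise_cons] at hA hB
      by_cases hab : a = b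
      · subst hab
        apply List.Sublist.cons_cons
        apply ih A hA.2 hB.2
        intro c hc
        rcases List.mem_cons.1 (h (List.mem_cons_of_mem _ hc)) with h1 | h1
        · exact absurd (hA.1 c hc) (by rw [h1]; exact lt_irrefl _)
        · exact h1
      · apply List.Sublist.cons
        have haB : a ∈ B := (List.mem_cons.1 (h List.mem_cons_self)).resolve_left hab
        have hba := hB.1 a haB
        apply ih (a :: A) (List.pairwise_cons.2 hA) hB.2
        intro c hc
        rcases List.mem_cons.1 (h hc) with h1 | h1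
        · exfalso
          rcases List.mem_cons.1 hc with h2 | h2
          · exact hab (h2.symm.trans h1)
          · have := hA.1 c h2
            rw [h1] at this
            exact absurd this hba.not_gt
        · exact h1

theorem contains_iff {U V : Type} {H : EOGraph V} {F : EOGraph U} {LH : List (Sym2 V)}
    {LF : List (Sym2 U)} (hH : Rep H LH) (hF : Rep F LF) :
    Contains H F ↔ ∃ f : U → V, Function.Injective f ∧ (LF.map (Sym2.map f)).Sublist LH := by
  constructor
  · rintro ⟨f, hf, h1, h2⟩
    refine ⟨f, hf, sublist_of_sorted H.label _ _ ?_ hH.sorted ?_⟩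
    · rw [List.pairwise_map]
      apply hF.sorted.imp_of_mem
      intro a b ha hb hab
      exact h2 a ((hF.mem a).1 ha) b ((hF.mem b).1 hb) hab
    · intro e he
      obtain ⟨c, hc, rfl⟩ := List.mem_map.1 he
      rw [hH.mem]
      have hc' := (hF.mem c).1 hc
      clear hc he
      induction c using Sym2.ind with
      | _ a b => exact h1 a b hc'
  · rintro ⟨f, hf, hsub⟩
    refine ⟨f, hf, ?_, ?_⟩
    · intro u v huv
      have h1 : s(u, v) ∈ LF := (hF.mem _).2 huv
      exact (hH.mem _).1 (hsub.subset (List.mem_map_of_mem (f := Sym2.map f) h1))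
    · have h1 := hH.sorted.sublist hsub
      rw [List.pairwise_map] at h1
      have h2 := hF.sorted.and h1
      have h3 : LF.Pairwise (fun a b =>
          (F.label a < F.label b → H.label (Sym2.map f a) < H.label (Sym2.map f b)) ∧
          (F.label b < F.label a → H.label (Sym2.map f b) < H.label (Sym2.map f a))) :=
        h2.imp fun hab => ⟨fun _ => hab.2, fun h => absurd h hab.1.not_gt⟩
      have hsymm : Std.Symm (fun a b : Sym2 U =>
          (F.label a < F.label b → H.label (Sym2.map f a) < H.label (Sym2.map f b)) ∧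
          (F.label b < F.label a → H.label (Sym2.map f b) < H.label (Sym2.map f a))) :=
        ⟨fun _ _ h => ⟨h.2, h.1⟩⟩
      intro e he e' he' hlt
      have hne : e ≠ e' := by
        rintro rfl
        exact lt_irrefl _ hlt
      exact (List.Pairwise.forall h3 ((hF.mem e).2 he) ((hF.mem e').2 he') hne).1 hlt

open Classical in
/-- the edge-ordered graph of a list -/
noncomputable def ofList {V : Type} (L : List (Sym2 V)) : EOGraph V where
  graph := SimpleGraph.fromEdgeSet {e | e ∈ L}
  label := fun e => (L.idxOf e : ℝ)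
  inj := by
    intro e he e' he' h
    rw [SimpleGraph.edgeSet_fromEdgeSet] at he he'
    have h' : ((L.idxOf e : ℕ) : ℝ) = ((L.idxOf e' : ℕ) : ℝ) := h
    exact (List.idxOf_inj he.1).1 (Nat.cast_injective h')

theorem rep_ofList {V : Type} {L : List (Sym2 V)} (hnd : L.Nodup) (hloop : ∀ e ∈ L, ¬ e.IsDiag) :
    Rep (ofList L) L := by
  classical
  constructor
  · intro e
    show e ∈ L ↔ e ∈ (SimpleGraph.fromEdgeSet {e | e ∈ L}).edgeSet
    rw [SimpleGraph.edgeSet_fromEdgeSet]
    constructor
    · intro h
      exact ⟨h, hloop e h⟩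
    · intro h
      exact h.1
  · rw [List.pairwise_iff_getElem]
    intro i j hi hj hij
    show (L.idxOf L[i] : ℝ) < (L.idxOf L[j] : ℝ)
    rw [List.Nodup.idxOf_getElem hnd, List.Nodup.idxOf_getElem hnd]
    exact_mod_cast hij

theorem rep_addMin {V : Type} {H : EOGraph V} {L : List (Sym2 V)} (hH : Rep H L) (u v : V)
    (l : ℝ) (hl : ∀ e ∈ H.graph.edgeSet, l < H.label e) (h : ¬ H.graph.Adj u v) (huv : u ≠ v) :
    Rep (addMin H u v l hl h) (s(u, v) :: L) := by
  classical
  have hne : ∀ e ∈ H.graph.edgeSet, e ≠ s(u, v) := by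
    rintro e he rfl
    exact h he
  have h1 : ∀ e ∈ L, (addMin H u v l hl h).label e = H.label e := fun e he =>
    Function.update_of_ne (hne e ((hH.mem e).1 he)) _ _
  have h2 : (addMin H u v l hl h).label s(u, v) = l := Function.update_self _ _ _
  constructor
  · intro e
    show e ∈ s(u, v) :: L ↔ e ∈ (H.graph ⊔ SimpleGraph.fromEdgeSet {s(u, v)}).edgeSet
    rw [SimpleGraph.edgeSet_sup, SimpleGraph.edgeSet_fromEdgeSet, List.mem_cons, hH.mem]
    constructor
    · rintro (rfl | h)
      · right
        exact ⟨rfl, by simpa using huv⟩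
      · exact Or.inl h
    · rintro (h | h)
      · exact Or.inr h
      · exact Or.inl h.1
  · rw [List.pairwise_cons]
    constructor
    · intro e he
      rw [h1 e he, h2]
      exact hl e ((hH.mem e).1 he)
    · apply hH.sorted.imp_of_mem
      intro a b ha hb hab
      rw [h1 a ha, h1 b hb]
      exact hab

theorem rep_e0Plus {U : Type} {G : EOGraph U} {L : List (Sym2 U)} (hG : Rep G L) (l : ℝ)
    (hl : ∀ e ∈ G.graph.edgeSet, l < G.label e) : Rep (e0Plus G l hl) (e0L L) := by
  have lab1 : ∀ e, (e0Plus G l hl).label (Sym2.map Sum.inl e) = G.label e := sum_label_inl G l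
  have lab2 : (e0Plus G l hl).label s(Sum.inr 0, Sum.inr 1) = l := sum_label_new G l
  constructor
  · intro e
    show e ∈ e0L L ↔ e ∈ (G.graph ⊕g (⊤ : SimpleGraph (Fin 2))).edgeSet
    rw [mem_sum_edgeSet, e0L, List.mem_cons, List.mem_map]
    simp only [hG.mem]
  · rw [e0L, List.pairwise_cons]
    constructor
    · intro e he
      obtain ⟨c, hc, rfl⟩ := List.mem_map.1 he
      rw [lab1, lab2]
      exact hl c ((hG.mem c).1 hc)
    · rw [List.pairwise_map]
      apply hG.sorted.imp
      intro a b hab
      rw [lab1, lab1]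
      exact hab

/-- For every edge-ordered graph `G`, the function `sat_m(n, e₀ + G)` is bounded. -/
theorem result (U : Type) [Finite U] (G : EOGraph U) (l : ℝ)
    (hl : ∀ e ∈ G.graph.edgeSet, l < G.label e) :
    ∃ C N : ℕ, ∀ n ≥ N,
      (∃ H : EOGraph (Fin n), MinSaturated (e0Plus G l hl) H) ∧ satm n (e0Plus G l hl) ≤ C := by
  classical
  obtain ⟨LG, hLG, hnd⟩ := exists_rep G
  have hloop : ∀ e ∈ LG, ¬ e.IsDiag := fun e he =>
    G.graph.not_isDiag_of_mem_edgeSet ((hLG.mem e).1 he)
  obtain ⟨C, N, h⟩ := list_saturation LG hnd hloop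
  refine ⟨C, N, fun n hn => ?_⟩
  obtain ⟨L, h1, h2, h3, h4, h5⟩ := h n hn
  have hRL := rep_ofList h1 h2
  have hF := rep_e0Plus hLG l hl
  have hsat : MinSaturated (e0Plus G l hl) (ofList L) := by
    refine ⟨fun hc => h4 ((contains_iff hRL hF).1 hc), ?_⟩
    intro u v l' hl' hadj huv
    have hR := rep_addMin hRL u v l' hl' hadj huv
    rw [contains_iff hR hF]
    apply h5 u v huv
    intro hmem
    exact hadj ((hRL.mem _).1 hmem)
  have hcard : (ofList L).graph.edgeSet.ncard = L.length := by
    have : (ofList L).graph.edgeSet = (L.toFinset : Set (Sym2 (Fin n))) := by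
      ext e
      rw [← hRL.mem]
      simp
    rw [this, Set.ncard_coe_finset, List.toFinset_card_of_nodup h1]
  refine ⟨⟨ofList L, hsat⟩, ?_⟩
  have hle : satm n (e0Plus G l hl) ≤ L.length := Nat.sInf_le ⟨ofList L, hsat, hcard⟩
  exact hle.trans h3

end Pool.Agent.Results.MP_5ab958_co.BoundedSaturation
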